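import Pool.Agent.P.MP_69a01b_lc.Defs

/-! Generated subalgebras, dense embeddings and the positive cases. -/

namespace Pool.Agent.P.MP_69a01b_lc

open Cardinal Set

universe u

variable {A B C : Type u} [BooleanAlgebra A] [BooleanAlgebra B] [BooleanAlgebra C]
  {m : Cardinal.{u}}

theorem isGLB_compl {S : Set A} {a : A} (h : IsLUB S a) : IsGLB (compl '' S) aᶜ :=
  ⟨by rintro _ ⟨s, hs, rfl⟩; exact compl_le_compl (h.1 hs),
   fun _ hb => le_compl_comm.1 (h.2 fun s hs => le_compl_comm.1 (hb ⟨s, hs, rfl⟩))⟩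

theorem isLUB_compl {S : Set A} {a : A} (h : IsGLB S a) : IsLUB (compl '' S) aᶜ :=
  ⟨by rintro _ ⟨s, hs, rfl⟩; exact compl_le_compl (h.1 hs),
   fun _ hb => compl_le_iff_compl_le.1 (h.2 fun s hs => compl_le_iff_compl_le.1 (hb ⟨s, hs, rfl⟩))⟩

theorem isMAlg_of_lub (h : ∀ S : Set B, #S ≤ m → ∃ b, IsLUB S b) : IsMAlg m B := by
  intro S hS
  refine ⟨h S hS, ?_⟩
  obtain ⟨b, hb⟩ := h (compl '' S) (mk_image_le.trans hS)
  have := isGLB_compl hb
  rw [image_image] at this
  simp only [compl_compl, image_id'] at this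
  exact ⟨_, this⟩

theorem pres_of_lub {h : BoundedLatticeHom A B}
    (H : ∀ S : Set A, #S ≤ m → ∀ a, IsLUB S a → IsLUB (h '' S) (h a)) : Pres m h := by
  intro S hS a
  refine ⟨H S hS a, fun ha => ?_⟩
  have := isGLB_compl (H _ (mk_image_le.trans hS) _ (isLUB_compl ha))
  rw [image_image, image_image] at this
  simpa only [map_compl', compl_compl] using this

theorem mk_pair_le {X : Type u} (hm : ℵ₀ ≤ m) (a b : X) : #({a, b} : Set X) ≤ m :=
  (Set.toFinite _).lt_aleph0.le.trans hm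

/-- The subalgebra given by a predicate closed under complements and joins of `≤ m` elements. -/
def subOf (hm : ℵ₀ ≤ m) (P : B → Prop) (hc : ∀ b, P b → P bᶜ)
    (hs : ∀ S : Set B, #S ≤ m → (∀ s ∈ S, P s) → ∀ b, IsLUB S b → P b) : BooleanSubalgebra B where
  carrier := {b | P b}
  compl_mem' := fun h => hc _ h
  bot_mem' := hs ∅ (by simp) (fun _ h => h.elim) ⊥ isLUB_empty
  supClosed' := fun a ha b hb => hs {a, b} (mk_pair_le hm a b)
    (by rintro s (rfl | rfl); exacts [ha, hb]) _ isLUB_pair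
  infClosed' := fun a ha b hb => by
    have := hc _ (hs {aᶜ, bᶜ} (mk_pair_le hm _ _)
      (by rintro s (rfl | rfl); exacts [hc _ ha, hc _ hb]) _ isLUB_pair)
    rwa [compl_sup, compl_compl, compl_compl] at this

theorem MGenerates.induction (hm : ℵ₀ ≤ m) {G : Set B} (hG : MGenerates m G) (P : B → Prop)
    (hb : ∀ g ∈ G, P g) (hc : ∀ b, P b → P bᶜ)
    (hs : ∀ S : Set B, #S ≤ m → (∀ s ∈ S, P s) → ∀ b, IsLUB S b → P b) (b : B) : P b := by
  have := hG (subOf hm P hc hs) hb (by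
    rintro S hS hSm b (h | h)
    · exact hs S hSm hS b h
    · have := hc _ (hs _ (mk_image_le.trans hSm)
        (by rintro _ ⟨s, hs, rfl⟩; exact hc _ (hS hs)) _ (isLUB_compl h))
      rwa [compl_compl] at this)
  have hb : b ∈ subOf hm P hc hs := by rw [this]; trivial
  exact hb

theorem hom_le_iff {h : BoundedLatticeHom A B} (hi : Function.Injective h) {a b : A} :
    h a ≤ h b ↔ a ≤ b :=
  ⟨fun H => by rw [← inf_eq_left] at H ⊢; exact hi (by rw [map_inf, H]),
   fun H => OrderHomClass.mono h H⟩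

theorem hom_eq_bot {h : BoundedLatticeHom A B} (hi : Function.Injective h) {a : A} :
    h a = ⊥ ↔ a = ⊥ := by rw [← map_bot h, hi.eq_iff]

theorem injective_of_eq_bot {h : BoundedLatticeHom A B} (H : ∀ a, h a = ⊥ → a = ⊥) :
    Function.Injective h := by
  have key : ∀ a b, h a = h b → a ≤ b := fun a b e => by
    rw [← sdiff_eq_bot_iff]
    apply H
    rw [map_sdiff', e, _root_.sdiff_self]
  exact fun a b e => le_antisymm (key a b e) (key b a e.symm)

/-- Elements generated from `G` by complements and joins of at most `m` elements. -/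
inductive Gen (m : Cardinal.{u}) (G : Set C) : C → Prop
  | base (g : C) : g ∈ G → Gen m G g
  | compl (b : C) : Gen m G b → Gen m G bᶜ
  | lub (S : Set C) : #S ≤ m → (∀ s ∈ S, Gen m G s) → ∀ b, IsLUB S b → Gen m G b

theorem exists_gen (hm : ℵ₀ ≤ m) (j : BoundedLatticeHom A C) (hC : IsMAlg m C) :
    ∃ (B : Type u) (_ : BooleanAlgebra B) (i : BoundedLatticeHom A B) (e : BoundedLatticeHom B C),
      IsMAlg m B ∧ MGenerates m (range i) ∧ Function.Injective e ∧ Pres m e ∧
        ∀ a, e (i a) = j a := by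
  let L : BooleanSubalgebra C := subOf hm (Gen m (range j)) Gen.compl Gen.lub
  have hL : ∀ c, c ∈ L ↔ Gen m (range j) c := fun _ => Iff.rfl
  let i : BoundedLatticeHom A L :=
    { toFun := fun a => ⟨j a, Gen.base _ ⟨a, rfl⟩⟩
      map_sup' := fun a b => Subtype.ext (map_sup j a b)
      map_inf' := fun a b => Subtype.ext (map_inf j a b)
      map_top' := Subtype.ext (map_top j)
      map_bot' := Subtype.ext (map_bot j) }
  have hlub : ∀ (S : Set L) (b : L), IsLUB (Subtype.val '' S) (b : C) → IsLUB S b :=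
    fun S b h => IsLUB.of_image (f := Subtype.val) Iff.rfl h
  have hex : ∀ S : Set L, #S ≤ m → ∃ b : L, IsLUB (Subtype.val '' S) (b : C) := by
    intro S hS
    obtain ⟨c, hc⟩ := (hC (Subtype.val '' S) (mk_image_le.trans hS)).1
    exact ⟨⟨c, Gen.lub _ (mk_image_le.trans hS) (by rintro _ ⟨s, -, rfl⟩; exact s.2) c hc⟩, hc⟩
  refine ⟨L, inferInstance, i, L.subtype, isMAlg_of_lub fun S hS => ?_, ?_,
    L.subtype_injective, pres_of_lub fun S hS a ha => ?_, fun _ => rfl⟩
  · obtain ⟨b, hb⟩ := hex S hS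
    exact ⟨b, hlub S b hb⟩
  · intro M hM hcl
    rw [eq_top_iff]
    rintro ⟨c, hc⟩ -
    have key : ∀ c, Gen m (range j) c → ∀ h : c ∈ L, (⟨c, h⟩ : L) ∈ M := by
      intro c hc
      induction hc with
      | base g hg =>
        obtain ⟨a, rfl⟩ := hg
        exact fun _ => hM ⟨a, rfl⟩
      | compl b hb ih => exact fun _ => BooleanSubalgebra.compl_mem (ih hb)
      | lub S hS hall b hb ih =>
        intro h
        refine hcl (Subtype.val ⁻¹' S) (fun s hs => ih s.1 hs s.2)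
          ((mk_preimage_of_injective _ _ Subtype.val_injective).trans hS) _ (Or.inl (hlub _ _ ?_))
        rwa [image_preimage_eq_of_subset]
        intro s hs
        exact ⟨⟨s, hall s hs⟩, rfl⟩
    exact key c hc hc
  · obtain ⟨b, hb⟩ := hex S hS
    rw [ha.unique (hlub S b hb)]
    exact hb

/-- The image of `i` is dense. -/
def DenseHom (i : BoundedLatticeHom A B) : Prop := ∀ b : B, b ≠ ⊥ → ∃ a : A, i a ≠ ⊥ ∧ i a ≤ b

theorem DenseHom.le_of_forall {i : BoundedLatticeHom A B} (hd : DenseHom i) {b c : B}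
    (h : ∀ a, i a ≠ ⊥ → i a ≤ b → ¬ Disjoint (i a) c) : b ≤ c := by
  rw [← sdiff_eq_bot_iff]
  by_contra hne
  obtain ⟨a, ha, hle⟩ := hd _ hne
  exact h a ha (hle.trans sdiff_le) (disjoint_sdiff_self_left.mono_left hle)

theorem DenseHom.le_of_below {i : BoundedLatticeHom A B} (hd : DenseHom i) {b c : B}
    (h : ∀ a, i a ≤ b → i a ≤ c) : b ≤ c :=
  hd.le_of_forall fun a ha hb hdis => ha (hdis.eq_bot_of_le (h a hb))

theorem exists_not_disjoint_of_isLUB {S : Set B} {b x : B} (hb : IsLUB S b) (hx : x ≠ ⊥)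
    (hle : x ≤ b) : ∃ s ∈ S, ¬ Disjoint x s := by
  by_contra h
  push Not at h
  exact hx ((le_compl_iff_disjoint_left.1
    (hb.2 fun s hs => le_compl_iff_disjoint_left.2 (h s hs))).eq_bot_of_le hle)

theorem DenseHom.isLUB {i : BoundedLatticeHom A B} (hd : DenseHom i) {S : Set A} {a : A}
    (hub : ∀ s ∈ S, s ≤ a) (h : ∀ p, p ≤ a → i p ≠ ⊥ → ∃ s ∈ S, i (p ⊓ s) ≠ ⊥) :
    IsLUB (i '' S) (i a) := by
  refine ⟨by rintro _ ⟨s, hs, rfl⟩; exact OrderHomClass.mono i (hub s hs), fun c hc => ?_⟩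
  refine hd.le_of_forall fun p hp hle hdis => ?_
  obtain ⟨s, hs, hne⟩ := h (p ⊓ a) inf_le_right (by rwa [map_inf, inf_eq_left.2 hle])
  apply hne
  rw [map_inf, map_inf]
  exact (hdis.mono inf_le_left (hc ⟨s, hs, rfl⟩)).eq_bot

theorem DenseHom.pres {i : BoundedLatticeHom A B} (hd : DenseHom i) (hi : Function.Injective i) :
    Pres m i :=
  pres_of_lub fun S _ a ha => hd.isLUB ha.1 fun p hp hne => by
    obtain ⟨s, hs, h⟩ := exists_not_disjoint_of_isLUB ha (mt (hom_eq_bot hi).2 hne) hp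
    exact ⟨s, hs, fun e => h (disjoint_iff.2 ((hom_eq_bot hi).1 e))⟩

theorem DenseHom.le_compl_iff {i : BoundedLatticeHom A B} (hd : DenseHom i)
    (hi : Function.Injective i) {a : A} {b : B} :
    i a ≤ bᶜ ↔ ∀ p, p ≤ a → i p ≤ b → p = ⊥ := by
  constructor
  · intro h p hp hb
    exact (hom_eq_bot hi).1 ((le_compl_iff_disjoint_right.1
      ((OrderHomClass.mono i hp).trans h)).eq_bot_of_le hb)
  · intro h
    rw [le_compl_iff_disjoint_right, disjoint_iff]
    by_contra hne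
    obtain ⟨p, hp, hle⟩ := hd _ hne
    exact hp ((hom_eq_bot hi).2 (h p ((hom_le_iff hi).1 (hle.trans inf_le_left))
      (hle.trans inf_le_right)))

theorem DenseHom.le_lub_iff {i : BoundedLatticeHom A B} (hd : DenseHom i)
    (hi : Function.Injective i) {a : A} {S : Set B} {b : B} (hb : IsLUB S b) :
    i a ≤ b ↔ ∀ p, p ≤ a → p ≠ ⊥ → ∃ q, q ≤ p ∧ q ≠ ⊥ ∧ ∃ s ∈ S, i q ≤ s := by
  constructor
  · intro h p hp hne
    obtain ⟨s, hs, hnd⟩ := exists_not_disjoint_of_isLUB hb (mt (hom_eq_bot hi).1 hne)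
      ((OrderHomClass.mono i hp).trans h)
    obtain ⟨q, hq, hle⟩ := hd _ (mt disjoint_iff.2 hnd)
    exact ⟨q, (hom_le_iff hi).1 (hle.trans inf_le_left), mt (hom_eq_bot hi).2 hq, s, hs,
      hle.trans inf_le_right⟩
  · intro h
    refine hd.le_of_forall fun p hp hle hdis => ?_
    obtain ⟨q, hq, hne, s, hs, hqs⟩ := h p ((hom_le_iff hi).1 hle) (mt (hom_eq_bot hi).2 hp)
    exact hne ((hom_eq_bot hi).1 ((hdis.mono_left (OrderHomClass.mono i hq)).eq_bot_of_le
      (hqs.trans (hb.1 hs))))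

/-- A map preserving complements and binary joins is a homomorphism. -/
def mkHom (f : A → B) (hc : ∀ a, f aᶜ = (f a)ᶜ) (hs : ∀ a b, f (a ⊔ b) = f a ⊔ f b) :
    BoundedLatticeHom A B where
  toFun := f
  map_sup' := hs
  map_inf' := fun a b => by
    rw [← compl_compl (a ⊓ b), compl_inf, hc, hs, hc, hc, compl_sup, compl_compl, compl_compl]
  map_top' := by rw [← sup_compl_eq_top (x := (⊤ : A)), hs, hc, sup_compl_eq_top]
  map_bot' := by
    rw [← compl_top, hc, ← sup_compl_eq_top (x := (⊤ : A)), hs, hc, sup_compl_eq_top, compl_top]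

theorem exists_hom_of_dense (hm : ℵ₀ ≤ m) {i : BoundedLatticeHom A B} (h : IsCompletion m i)
    {i' : BoundedLatticeHom A C} (h' : IsExt m i') (hd' : DenseHom i') :
    ∃ f : BoundedLatticeHom C B, Pres m f ∧ ∀ a, i a = f (i' a) := by
  obtain ⟨hB, hi, hd, -⟩ := h
  obtain ⟨-, hi', -, hg⟩ := h'
  have hd : DenseHom i := hd
  let R : C → B → Prop := fun c b => ∀ a, i' a ≤ c ↔ i a ≤ b
  have uniq : ∀ c b b', R c b → R c b' → b = b' := fun c b b' h1 h2 =>
    le_antisymm (hd.le_of_below fun a ha => (h2 a).1 ((h1 a).2 ha))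
      (hd.le_of_below fun a ha => (h1 a).1 ((h2 a).2 ha))
  have base : ∀ a, R (i' a) (i a) := fun a p => by rw [hom_le_iff hi, hom_le_iff hi']
  have cpl : ∀ c b, R c b → R cᶜ bᶜ := fun c b h a => by
    rw [hd.le_compl_iff hi, hd'.le_compl_iff hi']
    exact forall_congr' fun p => by rw [h p]
  have lub : ∀ (S : Set C) (f : C → B), (∀ s ∈ S, R s (f s)) → ∀ c b, IsLUB S c →
      IsLUB (f '' S) b → R c b := fun S f hf c b hc hb a => by
    rw [hd.le_lub_iff hi hb, hd'.le_lub_iff hi' hc]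
    refine forall₃_congr fun p _ _ => exists_congr fun q => and_congr_right fun _ =>
      and_congr_right fun _ => ⟨?_, ?_⟩
    · rintro ⟨s, hs, h⟩
      exact ⟨_, ⟨s, hs, rfl⟩, (hf s hs q).1 h⟩
    · rintro ⟨_, ⟨s, hs, rfl⟩, h⟩
      exact ⟨s, hs, (hf s hs q).2 h⟩
  have all : ∀ c, ∃ b, R c b := by
    refine hg.induction hm _ ?_ ?_ ?_
    · rintro _ ⟨a, rfl⟩
      exact ⟨_, base a⟩
    · rintro c ⟨b, hb⟩
      exact ⟨_, cpl c b hb⟩
    · intro S hS hall c hc
      choose! f hf using hall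
      obtain ⟨b, hb⟩ := (hB (f '' S) (mk_image_le.trans hS)).1
      exact ⟨b, lub S f hf c b hc hb⟩
  choose f hf using all
  have plub : ∀ S : Set C, #S ≤ m → ∀ c, IsLUB S c → IsLUB (f '' S) (f c) := by
    intro S hS c hc
    obtain ⟨b, hb⟩ := (hB (f '' S) (mk_image_le.trans hS)).1
    rwa [uniq c _ _ (hf c) (lub S f (fun s _ => hf s) c b hc hb)]
  refine ⟨mkHom f (fun c => uniq _ _ _ (hf _) (cpl _ _ (hf c))) fun a b => ?_,
    pres_of_lub plub, fun a => uniq _ _ _ (base a) (hf _)⟩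
  have := plub {a, b} (mk_pair_le hm a b) _ isLUB_pair
  rw [image_pair] at this
  exact this.unique isLUB_pair

end Pool.Agent.P.MP_69a01b_lc
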