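import Mathlib

/-! Boolean `m`-algebras, `m`-extensions and `m`-completions. The classes `J` and `M` are the
classes of all subsets of size at most `m` that have a join, respectively a meet. -/

namespace Pool.Agent.P.MP_69a01b_lc

open Cardinal

universe u

/-- A Boolean `m`-algebra: every subset of size at most `m` has a join and a meet. -/
def IsMAlg (m : Cardinal.{u}) (B : Type u) [BooleanAlgebra B] : Prop :=
  ∀ S : Set B, #S ≤ m → (∃ b, IsLUB S b) ∧ ∃ b, IsGLB S b

variable {A B : Type u} [BooleanAlgebra A] [BooleanAlgebra B]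

/-- `h` preserves every existing join and meet of a subset of size at most `m`. -/
def Pres (m : Cardinal.{u}) (h : BoundedLatticeHom A B) : Prop :=
  ∀ S : Set A, #S ≤ m → ∀ a, (IsLUB S a → IsLUB (h '' S) (h a)) ∧
    (IsGLB S a → IsGLB (h '' S) (h a))

/-- The only subalgebra containing `G` and closed under joins and meets of at most `m` elements
is the whole algebra. -/
def MGenerates (m : Cardinal.{u}) (G : Set B) : Prop :=
  ∀ L : BooleanSubalgebra B, G ⊆ L →
    (∀ S : Set B, S ⊆ L → #S ≤ m → ∀ b, IsLUB S b ∨ IsGLB S b → b ∈ L) → L = ⊤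

/-- `{i, B}` is a `(J, M, m)`-extension of `A`. -/
def IsExt (m : Cardinal.{u}) (i : BoundedLatticeHom A B) : Prop :=
  IsMAlg m B ∧ Function.Injective i ∧ Pres m i ∧ MGenerates m (Set.range i)

/-- `{i, B}` is an `m`-completion of `A`. -/
def IsCompletion (m : Cardinal.{u}) (i : BoundedLatticeHom A B) : Prop :=
  IsMAlg m B ∧ Function.Injective i ∧ (∀ b : B, b ≠ ⊥ → ∃ a : A, i a ≠ ⊥ ∧ i a ≤ b) ∧
    MGenerates m (Set.range i)

/-- `{i, B} ≤ {i', B'}` for every `(J, M, m)`-extension `{i', B'}`. -/
def Smallest (m : Cardinal.{u}) (i : BoundedLatticeHom A B) : Prop :=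
  ∀ (B' : Type u) [BooleanAlgebra B'] (i' : BoundedLatticeHom A B'), IsExt m i' →
    ∃ h : BoundedLatticeHom B' B, Pres m h ∧ ∀ a, i a = h (i' a)

/-- Some `m`-completion of `A` is not a smallest `(J, M, m)`-extension. -/
def Fails (m : Cardinal.{u}) (A : Type u) [BooleanAlgebra A] : Prop :=
  ∃ (B : Type u) (_ : BooleanAlgebra B) (i : BoundedLatticeHom A B),
    IsCompletion m i ∧ ¬ Smallest m i

end Pool.Agent.P.MP_69a01b_lc
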