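import Pool.Agent.P.MP_69a01b_lc.QC

/-! A field of sets whose `m`-completion is not the smallest `m`-extension. -/

namespace Pool.Agent.P.MP_69a01b_lc

open Cardinal Set

universe u

variable {L W : Type u} {n m : Cardinal.{u}}

/-- Points of the example. -/
abbrev Pt (L W : Type u) := L → Finset L × W

/-- Two values that are not distinguished by the data `σ`, `Ξ`. -/
def Sim (σ : Set L) (Ξ : Set (Finset L × W)) (d d' : Finset L × W) : Prop :=
  d = d' ∨ (d ∉ Ξ ∧ d' ∉ Ξ ∧ ∀ l ∈ σ, l ∈ d.1 ↔ l ∈ d'.1)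

theorem Sim.symm {σ : Set L} {Ξ : Set (Finset L × W)} {d d' : Finset L × W} (h : Sim σ Ξ d d') :
    Sim σ Ξ d' d :=
  h.imp Eq.symm fun h => ⟨h.2.1, h.1, fun l hl => (h.2.2 l hl).symm⟩

theorem Sim.mono {σ σ' : Set L} {Ξ Ξ' : Set (Finset L × W)} (h1 : σ ⊆ σ') (h2 : Ξ ⊆ Ξ')
    {d d' : Finset L × W} (h : Sim σ' Ξ' d d') : Sim σ Ξ d d' :=
  h.imp id fun h => ⟨fun x => h.1 (h2 x), fun x => h.2.1 (h2 x), fun l hl => h.2.2 l (h1 hl)⟩

/-- Sets that only depend on the data `σ`, `Ξ`. -/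
def Invar (σ : Set L) (Ξ : Set (Finset L × W)) (E : Set (Pt L W)) : Prop :=
  ∀ z z' : Pt L W, (∀ k ∈ σ, Sim σ Ξ (z k) (z' k)) → z ∈ E → z' ∈ E

theorem Invar.mono {σ σ' : Set L} {Ξ Ξ' : Set (Finset L × W)} (h1 : σ ⊆ σ') (h2 : Ξ ⊆ Ξ')
    {E : Set (Pt L W)} (h : Invar σ Ξ E) : Invar σ' Ξ' E :=
  fun z z' hz => h z z' fun k hk => (hz k (h1 hk)).mono h1 h2

theorem mk_union_lt (hn : ℵ₀ ≤ n) {X : Type u} {s t : Set X} (hs : #s < n) (ht : #t < n) :
    #(s ∪ t : Set X) < n :=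
  (mk_union_le s t).trans_lt (add_lt_of_lt hn hs ht)

theorem mk_fin_lt (hn : ℵ₀ ≤ n) {X : Type u} {s : Set X} (hs : s.Finite) : #s < n :=
  hs.lt_aleph0.trans_le hn

/-- The field of sets that depend on fewer than `n` data. -/
def fld (L W : Type u) (hn : ℵ₀ ≤ n) : BooleanSubalgebra (Set (Pt L W)) where
  carrier := {E | ∃ (σ : Set L) (Ξ : Set (Finset L × W)), #σ < n ∧ #Ξ < n ∧ Invar σ Ξ E}
  compl_mem' := fun ⟨σ, Ξ, h1, h2, h⟩ =>
    ⟨σ, Ξ, h1, h2, fun z z' hz hE hE' => hE (h z' z (fun k hk => (hz k hk).symm) hE')⟩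
  bot_mem' := ⟨∅, ∅, mk_fin_lt hn finite_empty, mk_fin_lt hn finite_empty, fun _ _ _ h => h⟩
  supClosed' := fun _ ⟨σ, Ξ, h1, h2, h⟩ _ ⟨σ', Ξ', h1', h2', h'⟩ =>
    ⟨σ ∪ σ', Ξ ∪ Ξ', mk_union_lt hn h1 h1', mk_union_lt hn h2 h2', fun z z' hz hE =>
      hE.imp (h.mono subset_union_left subset_union_left z z' hz)
        (h'.mono subset_union_right subset_union_right z z' hz)⟩
  infClosed' := fun _ ⟨σ, Ξ, h1, h2, h⟩ _ ⟨σ', Ξ', h1', h2', h'⟩ =>
    ⟨σ ∪ σ', Ξ ∪ Ξ', mk_union_lt hn h1 h1', mk_union_lt hn h2 h2', fun z z' hz hE =>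
      hE.imp (h.mono subset_union_left subset_union_left z z' hz)
        (h'.mono subset_union_right subset_union_right z z' hz)⟩

theorem fld_complete (hn : n.IsRegular) (S : Set (fld L W hn.aleph0_le)) (hS : #S < n) :
    ∃ a, IsLUB S a := by
  choose σ Ξ h1 h2 h using fun s : S => s.1.2
  refine ⟨⟨⋃ s : S, s.1.1, ⋃ s, σ s, ⋃ s, Ξ s,
    (card_iUnion_lt_iff_forall_of_isRegular hn hS).2 h1,
    (card_iUnion_lt_iff_forall_of_isRegular hn hS).2 h2, fun z z' hz hE => ?_⟩, ?_, ?_⟩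
  · obtain ⟨s, hs⟩ := mem_iUnion.1 hE
    exact mem_iUnion.2 ⟨s, (h s).mono (subset_iUnion σ s) (subset_iUnion Ξ s) z z' hz hs⟩
  · intro s hs
    exact subset_iUnion (fun s : S => s.1.1) ⟨s, hs⟩
  · intro c hc
    exact iUnion_subset fun s => hc s.2

variable (hn : ℵ₀ ≤ n)

/-- The set of points with a prescribed coordinate. -/
def eqSet (k : L) (d : Finset L × W) : fld L W hn :=
  ⟨{z | z k = d}, {k}, {d}, mk_fin_lt hn (finite_singleton _), mk_fin_lt hn (finite_singleton _),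
    fun z z' hz hE => by
      rcases hz k rfl with h | h
      · exact h.symm.trans hE
      · exact (h.1 hE).elim⟩

/-- The set of points whose `k`-th coordinate agrees with `y` at `l`. -/
def vSet (k : L) (y : Finset L) (l : L) : fld L W hn :=
  ⟨{z | l ∈ (z k).1 ↔ l ∈ y}, {k, l}, ∅, mk_fin_lt hn (toFinite _), mk_fin_lt hn finite_empty,
    fun z z' hz hE => by
      rcases hz k (Or.inl rfl) with h | h
      · change l ∈ (z' k).1 ↔ l ∈ y
        rw [← h]; exact hE
      · exact (h.2.2 l (Or.inr rfl)).symm.trans hE⟩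

/-- The ideal of sets with a small projection to the coordinate `k`. -/
def Sm (m : Cardinal.{u}) (k : L) (E : fld L W hn) : Prop :=
  #((fun z : Pt L W => z k) '' E.1) ≤ m

theorem exists_notMem_of_lt {X : Type u} {s t : Set X} (h : #s < #t) : ∃ x ∈ t, x ∉ s := by
  by_contra hc
  push Not at hc
  exact (mk_le_mk_of_subset hc).not_gt h

variable {hn}

theorem eq_bot_of_sm (hL : #L = n) (hW : m < #W) {E : fld L W hn} (h : ∀ k, Sm hn m k E) :
    E = ⊥ := by
  classical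
  obtain ⟨E, σ, Ξ, h1, h2, hE⟩ := E
  apply Subtype.ext
  change E = ∅
  by_contra hne
  obtain ⟨z, hz⟩ := nonempty_iff_ne_empty.2 hne
  obtain ⟨k, -, hk⟩ := exists_notMem_of_lt (s := σ) (t := univ) (by rwa [mk_univ, hL])
  refine (h k).not_gt (hW.trans_le (mk_le_of_injective (f := fun w : W =>
    (⟨(∅, w), Function.update z k (∅, w), hE z _ (fun k' hk' => Or.inl ?_) hz, by simp⟩ :
      (fun z : Pt L W => z k) '' E)) fun w w' e => ?_))
  · rw [Function.update_of_ne (fun e : k' = k => hk (e ▸ hk'))]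
  · exact (Prod.ext_iff.1 (Subtype.ext_iff.1 e)).2

theorem exists_not_sm_inf (hm : ℵ₀ ≤ m) {S : Set (fld L W hn)} (hS : #S ≤ m) {a p : fld L W hn}
    (ha : IsLUB S a) (hp : p ≤ a) {k : L} (hk : ¬ Sm hn m k p) : ∃ s ∈ S, ¬ Sm hn m k (p ⊓ s) := by
  by_contra hc
  push Not at hc
  have h0 : ∀ s : S, #((fun z : Pt L W => z k) '' (p ⊓ s.1).1) ≤ m := fun s => hc s.1 s.2
  have h1 : #(⋃ s : S, (fun z : Pt L W => z k) '' (p ⊓ s.1).1) ≤ m :=
    (mk_iUnion_le _).trans ((mul_le_mul' hS (ciSup_le' h0)).trans (mul_eq_self hm).le)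
  obtain ⟨_, ⟨z, hz, rfl⟩, hd⟩ := exists_notMem_of_lt (h1.trans_lt (not_le.1 hk))
  obtain ⟨s, hs, hnd⟩ := exists_not_disjoint_of_isLUB (x := p ⊓ eqSet hn k (z k)) ha
    (fun e => by
      have : z ∈ (p ⊓ eqSet hn k (z k)).1 := ⟨hz, rfl⟩
      rw [e] at this
      exact this) (inf_le_left.trans hp)
  apply hnd
  rw [disjoint_iff]
  apply Subtype.ext
  exact eq_empty_of_forall_notMem fun z' hz' =>
    hd (mem_iUnion.2 ⟨⟨s, hs⟩, z', ⟨hz'.1.1, hz'.2⟩, hz'.1.2⟩)

theorem exists_not_sm_sdiff (hL : #L = n) (hnm : n ≤ m) (hW : m < #W) {p : fld L W hn} {k : L}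
    (hk : ¬ Sm hn m k p) (y : Finset L) : ∃ l, ¬ Sm hn m k (p \ vSet hn k y l) := by
  classical
  obtain ⟨E, σ, Ξ, h1, h2, hE⟩ := p
  obtain ⟨_, ⟨z, hz, rfl⟩, hd⟩ := exists_notMem_of_lt ((h2.trans_le hnm).trans (not_le.1 hk))
  obtain ⟨l, -, hl⟩ := exists_notMem_of_lt (s := σ) (t := univ) (by rwa [mk_univ, hL])
  obtain ⟨y', hy1, hy2⟩ : ∃ y' : Finset L, ¬ (l ∈ y' ↔ l ∈ y) ∧
      ∀ l' ∈ σ, l' ∈ (z k).1 ↔ l' ∈ y' := by
    by_cases h : l ∈ y
    · refine ⟨(z k).1.erase l, by simp [h], fun l' hl' => ?_⟩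
      have : l' ≠ l := fun e => hl (e ▸ hl')
      simp [this]
    · refine ⟨insert l (z k).1, by simp [h], fun l' hl' => ?_⟩
      have : l' ≠ l := fun e => hl (e ▸ hl')
      simp [this]
  refine ⟨l, fun hsm => hW.not_ge ?_⟩
  have hm : ℵ₀ ≤ m := hn.trans hnm
  have hinj : Function.Injective fun w : W => (y', w) := fun w w' e => (Prod.ext_iff.1 e).2
  rw [← mk_univ]
  refine (mk_le_mk_of_subset (t := (fun w : W => (y', w)) ⁻¹' (Ξ ∪ (fun z : Pt L W => z k) ''
    (E \ (vSet hn k y l).1))) fun w _ => ?_).trans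
    ((mk_preimage_of_injective _ _ hinj).trans ((mk_union_le _ _).trans
      ((add_le_add (h2.le.trans hnm) hsm).trans (add_eq_self hm).le)))
  by_cases hw : (y', w) ∈ Ξ
  · exact Or.inl hw
  · refine Or.inr ⟨Function.update z k (y', w), ⟨hE z _ (fun k' _ => ?_) hz, ?_⟩, by simp⟩
    · by_cases e : k' = k
      · subst e
        rw [Function.update_self]
        exact Or.inr ⟨hd, hw, hy2⟩
      · rw [Function.update_of_ne e]
        exact Or.inl rfl
    · change ¬ (l ∈ (Function.update z k (y', w) k).1 ↔ l ∈ y)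
      rw [Function.update_self]
      exact hy1

theorem exists_family (hm : ℵ₀ ≤ m) (k : L) :
    ∃ (C : Type u) (_ : BooleanAlgebra C) (j : BoundedLatticeHom (fld L W hn) C),
      (∀ S : Set C, ∃ c, IsLUB S c) ∧ (∀ a, j a = ⊥ ↔ Sm hn m k a) ∧ DenseHom j :=
  exists_quot_completion (Sm hn m k) (by
      change #((fun z : Pt L W => z k) '' ∅) ≤ m
      simp)
    (fun a b h hb => (mk_le_mk_of_subset (image_mono h)).trans hb)
    (fun a b ha hb => by
      change #((fun z : Pt L W => z k) '' (a.1 ∪ b.1)) ≤ m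
      rw [image_union]
      exact (mk_union_le _ _).trans ((add_le_add ha hb).trans (add_eq_self hm).le))

theorem Pres.glb_range {B C : Type u} [BooleanAlgebra B] [BooleanAlgebra C]
    {h : BoundedLatticeHom B C} (hp : Pres m h) {ι : Type u} (hι : #ι ≤ m) {f : ι → B} {b : B}
    (hb : IsGLB (range f) b) : IsGLB (range fun x => h (f x)) (h b) := by
  have := (hp _ (mk_range_le.trans hι) b).2 hb
  rwa [← range_comp] at this

theorem Pres.lub_range {B C : Type u} [BooleanAlgebra B] [BooleanAlgebra C]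
    {h : BoundedLatticeHom B C} (hp : Pres m h) {ι : Type u} (hι : #ι ≤ m) {f : ι → B} {b : B}
    (hb : IsLUB (range f) b) : IsLUB (range fun x => h (f x)) (h b) := by
  have := (hp _ (mk_range_le.trans hι) b).1 hb
  rwa [← range_comp] at this

theorem fails_fld (hL : #L = n) (hnm : n ≤ m) (hW : m < #W) : Fails m (fld L W hn) := by
  have hm : ℵ₀ ≤ m := hn.trans hnm
  obtain ⟨B, _, i, hi⟩ := exists_completion hm (fld L W hn)
  refine ⟨B, inferInstance, i, hi, fun hs => ?_⟩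
  choose C inst j hC hj hd using fun k : L => exists_family (W := W) (hn := hn) hm k
  let J : BoundedLatticeHom (fld L W hn) (∀ k, C k) :=
    { toFun := fun a k => j k a
      map_sup' := fun a b => funext fun k => map_sup (j k) a b
      map_inf' := fun a b => funext fun k => map_inf (j k) a b
      map_top' := funext fun k => map_top (j k)
      map_bot' := funext fun k => map_bot (j k) }
  have hCm : IsMAlg m (∀ k, C k) := isMAlg_of_lub fun S _ => by
    choose c hc using fun k => hC k (Function.eval k '' S)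
    exact ⟨c, isLUB_pi.2 hc⟩
  obtain ⟨B', _, i', e, hB', hg, he, hpe, hei⟩ := exists_gen hm J hCm
  have hext : IsExt m i' := by
    refine ⟨hB', injective_of_eq_bot fun a h => eq_bot_of_sm hL hW fun k => (hj k a).1 ?_,
      pres_of_lub fun S hS a ha => ?_, hg⟩
    · have := hei a
      rw [h, map_bot] at this
      exact (congrFun this k).symm
    · refine IsLUB.of_image (f := e) (hom_le_iff he) ?_
      rw [hei, image_image, isLUB_pi]
      intro k
      rw [image_image]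
      simp only [hei]
      refine (hd k).isLUB ha.1 fun p hp hne => ?_
      obtain ⟨s, hs, h⟩ := exists_not_sm_inf hm hS ha hp (mt (hj k p).2 hne)
      exact ⟨s, hs, mt (hj k _).1 h⟩
  obtain ⟨h, hph, hh⟩ := hs B' i' hext
  have hLm : #L ≤ m := hL.le.trans hnm
  have : Infinite L := infinite_iff.2 (hL ▸ hn)
  have hFm : #(Finset L) ≤ m := by rwa [mk_finset_of_infinite]
  choose g hgl using fun (k : L) (y : Finset L) =>
    (hB' (range fun l => i' (vSet hn k y l)) (mk_range_le.trans hLm)).2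
  choose t htl using fun k : L => (hB' (range (g k)) (mk_range_le.trans hFm)).1
  obtain ⟨f, hf⟩ := (hB' (range t) (mk_range_le.trans hLm)).2
  have g0 : ∀ k y, e (g k y) k = ⊥ := by
    intro k y
    by_contra hne
    obtain ⟨p, hp, hle⟩ := hd k _ hne
    obtain ⟨l, hl⟩ := exists_not_sm_sdiff hL hnm hW (mt (hj k p).2 hp) y
    apply hl
    rw [← hj, map_sdiff', sdiff_eq_bot_iff]
    refine hle.trans ?_
    have := OrderHomClass.mono e ((hgl k y).1 ⟨l, rfl⟩) k
    rwa [hei] at this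
  have t0 : ∀ k, e (t k) k = ⊥ := by
    intro k
    have := isLUB_pi.1 (hpe.lub_range hFm (htl k)) k
    refine le_bot_iff.1 (this.2 ?_)
    rintro _ ⟨_, ⟨y, rfl⟩, rfl⟩
    exact (g0 k y).le
  have f0 : f = ⊥ := by
    refine (hom_eq_bot he).1 (funext fun k => le_bot_iff.1 ?_)
    exact (OrderHomClass.mono e (hf.1 ⟨k, rfl⟩) k).trans (t0 k).le
  obtain ⟨-, hinj, hdi, -⟩ := hi
  have hdi : DenseHom i := hdi
  have t1 : ∀ k, h (t k) = ⊤ := by
    intro k
    refine top_le_iff.1 (hdi.le_of_forall fun p hp _ hdis => ?_)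
    have hp0 : p.1 ≠ ∅ := fun e => hp ((hom_eq_bot hinj).2 (Subtype.ext e))
    obtain ⟨z, hz⟩ := nonempty_iff_ne_empty.2 hp0
    have h1 : i (p ⊓ eqSet hn k (z k)) ≤ h (g k (z k).1) := by
      refine (hph.glb_range hLm (hgl k (z k).1)).2 ?_
      rintro _ ⟨l, rfl⟩
      simp only [← hh]
      refine OrderHomClass.mono i fun z' hz' => ?_
      change l ∈ (z' k).1 ↔ l ∈ (z k).1
      rw [show z' k = z k from hz'.2]
    have h2 := h1.trans (OrderHomClass.mono h ((htl k).1 ⟨_, rfl⟩))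
    have h3 := (hom_eq_bot hinj).1
      ((hdis.mono_left (OrderHomClass.mono i inf_le_left)).eq_bot_of_le h2)
    have : z ∈ (p ⊓ eqSet hn k (z k)).1 := ⟨hz, rfl⟩
    rw [h3] at this
    exact this
  have f1 : (⊤ : B) ≤ h f := by
    refine (hph.glb_range hLm hf).2 ?_
    rintro _ ⟨k, rfl⟩
    exact (t1 k).ge
  rw [f0, map_bot, ← map_top i, le_bot_iff, hom_eq_bot hinj] at f1
  have hW0 : Nonempty W := mk_ne_zero_iff.1 (pos_of_gt hW).ne'
  have : (fun _ => (∅, hW0.some) : Pt L W) ∈ (⊤ : fld L W hn).1 := trivial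
  rw [f1] at this
  exact this

theorem mk_fld_le (hL : #L = ℵ₀) (hW : ℵ₀ ≤ #W) : #(fld L W (le_refl ℵ₀)) ≤ #W := by
  classical
  have : Infinite L := infinite_iff.2 hL.ge
  have : Infinite W := infinite_iff.2 hW
  have hfin : ∀ (σ : Set L) (Ξ : Set (Finset L × W)), σ.Finite → Ξ.Finite →
      {E | Invar σ Ξ E}.Finite := by
    intro σ Ξ hσ hΞ
    have : Finite σ := hσ
    let cd : Pt L W → σ → (Finset L × W) ⊕ Set L := fun z k =>
      if z k ∈ Ξ then Sum.inl (z k) else Sum.inr (σ ∩ (z k).1)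
    have h1 : (range cd).Finite := by
      refine (Set.Finite.pi' (t := fun _ : σ => Sum.inl '' Ξ ∪ Sum.inr '' 𝒫 σ) fun _ =>
        (hΞ.image _).union (hσ.powerset.image _)).subset ?_
      rintro _ ⟨z, rfl⟩ k
      simp only [cd]
      split_ifs with h
      · exact Or.inl ⟨_, h, rfl⟩
      · exact Or.inr ⟨_, inter_subset_left, rfl⟩
    refine (h1.powerset.image fun T => cd ⁻¹' T).subset fun E hE => ⟨cd '' E,
      image_subset_range _ _, Subset.antisymm ?_ (subset_preimage_image _ _)⟩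
    rintro z' ⟨z, hz, e⟩
    refine hE z z' (fun k hk => ?_) hz
    have := congrFun e ⟨k, hk⟩
    simp only [cd] at this
    split_ifs at this with h h'
    · exact Or.inl (Sum.inl_injective this)
    · refine Or.inr ⟨h, by assumption, fun l hl => ?_⟩
      have := Set.ext_iff.1 (Sum.inr_injective this) l
      simpa [hl] using this
  have hsub : ((fld L W (le_refl ℵ₀) : BooleanSubalgebra _) : Set (Set (Pt L W))) ⊆
      ⋃ q : Finset L × Finset (Finset L × W), {E | Invar (q.1 : Set L) q.2 E} := by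
    rintro E ⟨σ, Ξ, h1, h2, h⟩
    rw [lt_aleph0_iff_set_finite] at h1 h2
    exact mem_iUnion.2 ⟨(h1.toFinset, h2.toFinset), by simpa using h⟩
  refine (mk_le_mk_of_subset hsub).trans ((mk_iUnion_le _).trans ?_)
  refine (mul_le_mul' (le_of_eq ?_) (ciSup_le' fun q =>
    ((hfin _ _ q.1.finite_toSet q.2.finite_toSet).lt_aleph0.le.trans hW))).trans
    (mul_eq_self hW).le
  simp only [mk_prod, lift_id, mk_finset_of_infinite, hL, aleph0_mul_eq hW]

end Pool.Agent.P.MP_69a01b_lc
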