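import Pool.Agent.P.MP_69a01b_lc.Basic

/-! The positive cases: chain condition, and complete algebras. -/

namespace Pool.Agent.P.MP_69a01b_lc

open Cardinal Set

universe u

variable {A B C : Type u} [BooleanAlgebra A] [BooleanAlgebra B] [BooleanAlgebra C]
  {m : Cardinal.{u}}

theorem exists_small_lub (hcc : ∀ S : Set A, ⊥ ∉ S → S.Pairwise Disjoint → #S ≤ m) {U : Set A}
    {a : A} (hU : ∀ u ∈ U, u ≤ a)
    (hdense : ∀ p, p ≤ a → p ≠ ⊥ → ∃ q ∈ U, q ≤ p ∧ q ≠ ⊥) :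
    ∃ T, T ⊆ U ∧ #T ≤ m ∧ IsLUB T a := by
  obtain ⟨T, hT⟩ := zorn_subset {T : Set A | T ⊆ U ∧ ⊥ ∉ T ∧ T.Pairwise Disjoint} (by
    intro c hc hch
    refine ⟨⋃₀ c, ⟨sUnion_subset fun T hT => (hc hT).1, fun ⟨T, hT, h⟩ => (hc hT).2.1 h, ?_⟩,
      fun T hT => subset_sUnion_of_mem hT⟩
    rintro x ⟨T1, h1, hx⟩ y ⟨T2, h2, hy⟩ hne
    rcases hch.total h1 h2 with h | h
    · exact (hc h2).2.2 (h hx) hy hne
    · exact (hc h1).2.2 hx (h hy) hne)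
  obtain ⟨hTU, hTb, hTd⟩ := hT.prop
  refine ⟨T, hTU, hcc T hTb hTd, fun t ht => hU t (hTU ht), fun c hc => ?_⟩
  rw [← sdiff_eq_bot_iff]
  by_contra hne
  obtain ⟨q, hq, hle, hq0⟩ := hdense _ sdiff_le hne
  have hdis : ∀ t ∈ T, Disjoint q t := fun t ht =>
    disjoint_sdiff_self_left.mono hle (hc ht)
  have hmem : q ∈ T := hT.2 (y := insert q T) ⟨insert_subset hq hTU, by
      rintro (h | h)
      · exact hq0 h.symm
      · exact hTb h, hTd.insert fun t ht _ => ⟨hdis t ht, (hdis t ht).symm⟩⟩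
    (subset_insert _ _) (mem_insert _ _)
  exact hq0 (disjoint_self.1 (hdis q hmem))

theorem dense_of_cc (hm : ℵ₀ ≤ m) (hcc : ∀ S : Set A, ⊥ ∉ S → S.Pairwise Disjoint → #S ≤ m)
    {i : BoundedLatticeHom A C} (h : IsExt m i) : DenseHom i := by
  obtain ⟨-, hi, hp, hg⟩ := h
  have key : ∀ (a : A) (c : C), (∀ p, p ≤ a → p ≠ ⊥ → ∃ q, q ≤ p ∧ q ≠ ⊥ ∧ i q ≤ c) → i a ≤ c := by
    intro a c h
    obtain ⟨T, hTU, hTm, hT⟩ := exists_small_lub hcc (U := {u | u ≤ a ∧ i u ≤ c}) (a := a)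
      (fun u hu => hu.1) fun p hp hne => by
        obtain ⟨q, hq, hq0, hqc⟩ := h p hp hne
        exact ⟨q, ⟨hq.trans hp, hqc⟩, hq, hq0⟩
    refine ((hp T hTm a).1 hT).2 ?_
    rintro _ ⟨t, ht, rfl⟩
    exact (hTU ht).2
  have dec : ∀ c : C, ∀ p : A, p ≠ ⊥ → ∃ q, q ≤ p ∧ q ≠ ⊥ ∧ (i q ≤ c ∨ i q ≤ cᶜ) := by
    refine hg.induction hm _ ?_ ?_ ?_
    · rintro _ ⟨a, rfl⟩ p hp
      by_cases h : p ⊓ a = ⊥
      · refine ⟨p, le_rfl, hp, Or.inr ?_⟩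
        rw [← map_compl']
        exact OrderHomClass.mono i (le_compl_iff_disjoint_right.2 (disjoint_iff.2 h))
      · exact ⟨p ⊓ a, inf_le_left, h, Or.inl (OrderHomClass.mono i inf_le_right)⟩
    · intro c h p hp
      obtain ⟨q, h1, h2, h3⟩ := h p hp
      exact ⟨q, h1, h2, by rw [compl_compl]; exact h3.symm⟩
    · intro S _ hall c hc p hp
      by_cases h : ∃ q, q ≤ p ∧ q ≠ ⊥ ∧ ∃ s ∈ S, i q ≤ s
      · obtain ⟨q, h1, h2, s, hs, h3⟩ := h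
        exact ⟨q, h1, h2, Or.inl (h3.trans (hc.1 hs))⟩
      · refine ⟨p, le_rfl, hp, Or.inr (le_compl_comm.1 (hc.2 fun s hs => le_compl_comm.1 ?_))⟩
        refine key p _ fun p' hp' hne => ?_
        obtain ⟨q, h1, h2, h3 | h3⟩ := hall s hs p' hne
        · exact absurd ⟨q, h1.trans hp', h2, s, hs, h3⟩ h
        · exact ⟨q, h1, h2, h3⟩
  intro c hc
  by_contra hno
  apply hc
  have := key ⊤ cᶜ fun p _ hne => by
    obtain ⟨q, h1, h2, h3 | h3⟩ := dec c p hne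
    · exact absurd ⟨q, mt (hom_eq_bot hi).1 h2, h3⟩ hno
    · exact ⟨q, h1, h2, h3⟩
  rwa [map_top, top_le_iff, compl_eq_top] at this

theorem not_fails_of_cc (hm : ℵ₀ ≤ m)
    (hcc : ∀ S : Set A, ⊥ ∉ S → S.Pairwise Disjoint → #S ≤ m) : ¬ Fails m A := by
  rintro ⟨B, _, i, hi, hns⟩
  exact hns fun C _ i' h' => exists_hom_of_dense hm hi h' (dense_of_cc hm hcc h')

theorem dense_of_complete (hm : ℵ₀ ≤ m) (hA : ∀ S : Set A, #S ≤ m → ∃ a, IsLUB S a)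
    {i : BoundedLatticeHom A C} (h : IsExt m i) : DenseHom i := by
  obtain ⟨-, hi, hp, hg⟩ := h
  have surj : ∀ c : C, ∃ a, i a = c := by
    refine hg.induction hm _ (fun _ h => h) ?_ ?_
    · rintro _ ⟨a, rfl⟩
      exact ⟨aᶜ, map_compl' i a⟩
    · intro S hS hall c hc
      have hS' := (mk_preimage_of_injective i S hi).trans hS
      obtain ⟨a, ha⟩ := hA _ hS'
      have := (hp _ hS' a).1 ha
      rw [image_preimage_eq_of_subset fun s hs => hall s hs] at this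
      exact ⟨a, this.unique hc⟩
  intro c hc
  obtain ⟨a, rfl⟩ := surj c
  exact ⟨a, hc, le_rfl⟩

theorem not_fails_of_complete (hm : ℵ₀ ≤ m) (hA : ∀ S : Set A, #S ≤ m → ∃ a, IsLUB S a) :
    ¬ Fails m A := by
  rintro ⟨B, _, i, hi, hns⟩
  exact hns fun C _ i' h' => exists_hom_of_dense hm hi h' (dense_of_complete hm hA h')

theorem complete_of_singular (hm : ℵ₀ ≤ m) (hs : ¬ m.IsRegular)
    (hA : ∀ S : Set A, #S < m → ∃ a, IsLUB S a) (S : Set A) (hS : #S ≤ m) : ∃ a, IsLUB S a := by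
  have hsing := IsSingular.of_not_isRegular hm hs
  obtain ⟨f⟩ : Nonempty (S ↪ m.ord.ToType) := by
    rw [← Cardinal.le_def, mk_ord_toType]; exact hS
  obtain ⟨T, hT, hTc⟩ := Order.exists_cof_eq (α := m.ord.ToType)
  rw [Ordinal.cof_toType] at hTc
  have hpiece : ∀ t : m.ord.ToType, #(Subtype.val '' (f ⁻¹' Iic t) : Set A) < m := by
    intro t
    refine mk_image_le.trans_lt ((mk_preimage_of_injective _ _ f.injective).trans_lt ?_)
    have := mk_Iic_lt t (by simp) (by simpa using hm)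
    simpa using this
  choose g hg using fun t => hA _ (hpiece t)
  obtain ⟨a, ha⟩ := hA (g '' T) (mk_image_le.trans_lt (hTc ▸ hsing.cof_ord_lt))
  refine ⟨a, fun s hs => ?_, fun c hc => ha.2 ?_⟩
  · obtain ⟨t, ht, hle⟩ := hT (f ⟨s, hs⟩)
    exact ((hg t).1 ⟨⟨s, hs⟩, hle, rfl⟩).trans (ha.1 ⟨t, ht, rfl⟩)
  · rintro _ ⟨t, -, rfl⟩
    refine (hg t).2 ?_
    rintro _ ⟨s, -, rfl⟩
    exact hc s.2

end Pool.Agent.P.MP_69a01b_lc
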