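import Pool.Agent.P.MP_69a01b_lc.Basic

/-! The completion of the quotient of a Boolean algebra by an ideal. -/

namespace Pool.Agent.P.MP_69a01b_lc

open Cardinal Set

universe u

variable {A : Type u} [BooleanAlgebra A]

theorem mem_compl_lower {P : Type u} [PartialOrder P] (U : LowerSet P) (p : P) :
    p ∈ Uᶜ ↔ ∀ q, q ≤ p → q ∉ U := by
  rw [← LowerSet.Iic_le, le_compl_iff_disjoint_right, disjoint_iff, eq_bot_iff]
  constructor
  · intro h q hq hU
    exact h (show q ∈ LowerSet.Iic p ⊓ U from ⟨hq, hU⟩)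
  · intro h q hq
    exact (h q hq.1 hq.2).elim

/-- A map preserving complements and binary meets is a homomorphism. -/
def mkHomInf {B : Type u} [BooleanAlgebra B] (f : A → B) (hc : ∀ a, f aᶜ = (f a)ᶜ)
    (hi : ∀ a b, f (a ⊓ b) = f a ⊓ f b) : BoundedLatticeHom A B :=
  mkHom f hc fun a b => by
    rw [← compl_compl (a ⊔ b), compl_sup, hc, hi, hc, hc, compl_inf, compl_compl, compl_compl]

theorem exists_quot_completion (I : A → Prop) (hbot : I ⊥) (hdown : ∀ a b, a ≤ b → I b → I a)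
    (hsup : ∀ a b, I a → I b → I (a ⊔ b)) :
    ∃ (C : Type u) (_ : BooleanAlgebra C) (j : BoundedLatticeHom A C),
      (∀ S : Set C, ∃ c, IsLUB S c) ∧ (∀ a, j a = ⊥ ↔ I a) ∧ DenseHom j := by
  let P := {a : A // ¬ I a}
  let U : A → LowerSet P := fun a => ⟨{p | I (p.1 \ a)}, fun p q hpq h =>
    hdown _ _ (sdiff_le_sdiff_right hpq) h⟩
  have hU : ∀ a p, p ∈ U a ↔ I (p.1 \ a) := fun _ _ => Iff.rfl
  have hc : ∀ a, (U a)ᶜ = U aᶜ := by
    intro a
    ext p
    rw [SetLike.mem_coe, SetLike.mem_coe, mem_compl_lower, hU, _root_.sdiff_compl]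
    constructor
    · intro h
      by_contra hn
      exact h ⟨p.1 ⊓ a, hn⟩ inf_le_left (by
        rw [hU, sdiff_eq_bot_iff.2 (show p.1 ⊓ a ≤ a from inf_le_right)]; exact hbot)
    · intro h q hq hqa
      apply q.2
      rw [← sup_inf_sdiff q.1 a]
      exact hsup _ _ (hdown _ _ (inf_le_inf_right a hq) h) hqa
  have hi : ∀ a b, U (a ⊓ b) = U a ⊓ U b := by
    intro a b
    ext p
    change I (p.1 \ (a ⊓ b)) ↔ I (p.1 \ a) ∧ I (p.1 \ b)
    rw [sdiff_inf]
    exact ⟨fun h => ⟨hdown _ _ le_sup_left h, hdown _ _ le_sup_right h⟩, fun h => hsup _ _ h.1 h.2⟩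
  let f : A → Heyting.Regular (LowerSet P) := fun a =>
    ⟨U a, by rw [Heyting.IsRegular, hc, hc, compl_compl]⟩
  have fc : ∀ a, f aᶜ = (f a)ᶜ := fun a => Heyting.Regular.coe_injective (hc a).symm
  have fi : ∀ a b, f (a ⊓ b) = f a ⊓ f b := fun a b => Heyting.Regular.coe_injective (hi a b)
  have hb : ∀ a, f a = ⊥ ↔ I a := by
    intro a
    constructor
    · intro h
      by_contra hn
      have h1 : (⟨a, hn⟩ : P) ∈ U a := by rw [hU]; simpa using hbot
      have h2 : U a = ⊥ := congrArg Heyting.Regular.val h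
      rw [h2] at h1
      exact h1
    · intro h
      apply Heyting.Regular.coe_injective
      change U a = ⊥
      rw [eq_bot_iff]
      intro p hp
      apply (p.2 _).elim
      rw [← sup_inf_sdiff p.1 a]
      exact hsup _ _ (hdown _ _ inf_le_right h) hp
  refine ⟨Heyting.Regular (LowerSet P), inferInstance, mkHomInf f fc fi, fun S => ?_,
    hb, fun c hne => ?_⟩
  · exact ⟨_, Heyting.Regular.gi.isLUB_of_u_image (isLUB_sSup _)⟩
  · have : ∃ p : P, p ∈ c.val := by
      by_contra h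
      push Not at h
      exact hne (Heyting.Regular.coe_injective (eq_bot_iff.2 fun p hp => (h p hp).elim))
    obtain ⟨p, hp⟩ := this
    refine ⟨p.1, mt (hb _).1 p.2, ?_⟩
    change U p.1 ≤ c.val
    rw [← c.prop.eq]
    intro q hq
    rw [SetLike.mem_coe, mem_compl_lower]
    intro r hr hrc
    rw [mem_compl_lower] at hrc
    have hn : ¬ I (r.1 ⊓ p.1) := fun h => r.2 (by
      rw [← sup_inf_sdiff r.1 p.1]
      exact hsup _ _ h (hdown _ _ (sdiff_le_sdiff_right hr) hq))
    exact hrc ⟨_, hn⟩ inf_le_left (c.val.lower (show (⟨_, hn⟩ : P) ≤ p from inf_le_right) hp)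

theorem exists_completion {m : Cardinal.{u}} (hm : ℵ₀ ≤ m) (A : Type u) [BooleanAlgebra A] :
    ∃ (B : Type u) (_ : BooleanAlgebra B) (i : BoundedLatticeHom A B), IsCompletion m i := by
  obtain ⟨C, _, j, hC, hj, hd⟩ := exists_quot_completion (A := A) (fun a => a = ⊥) rfl
    (fun a b h e => le_bot_iff.1 (e ▸ h)) (fun a b h1 h2 => by rw [h1, h2, sup_idem])
  obtain ⟨B, _, i, e, hB, hg, he, -, hei⟩ := exists_gen hm j (isMAlg_of_lub fun S _ => hC S)
  refine ⟨B, inferInstance, i, hB, injective_of_eq_bot fun a h => (hj a).1 ?_, fun b hb => ?_, hg⟩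
  · rw [← hei, h, map_bot]
  · obtain ⟨a, ha, hle⟩ := hd (e b) (mt (hom_eq_bot he).1 hb)
    rw [← hei] at ha hle
    exact ⟨a, mt (hom_eq_bot he).2 ha, (hom_le_iff he).1 hle⟩

end Pool.Agent.P.MP_69a01b_lc
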